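import Pool.Agent.Helper82_Alt.G2

/-!
# Signature and minimal degrees of the two polynomials of alternating links
-/

set_option autoImplicit false

namespace Pool.Agent.Results.MP_3a4f2f_gt.AlternatingLinks

open Pool.Agent.Helper454.Kauf (Word Raz KauffmanRules circle)
open Pool.Agent.Helper454.Wh (OWord forget OClosed Rlm IsHomfly)
open Pool.Agent.Helper82_Alt

/-- The skein polynomial `P` and the bracket `K` (regular isotopy invariant of the Kauffman
polynomial) exist, and for every alternating diagram `D` of an oriented link the least exponent `dF` of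
`a` in `F(a⁻¹, z)`, the least exponent `dP` of `l` in `P` and the signature `σ` satisfy
`dF ≤ dP ≤ σ`. -/
theorem result :
    (∃ P : OWord → Rlm, IsHomfly P) ∧ (∃ K : Word → Raz, KauffmanRules K ∧ K circle = 1) ∧
    ∀ (P : OWord → Rlm) (K : Word → Raz), IsHomfly P → KauffmanRules K → K circle = 1 →
      ∀ D : OWord, OClosed D → D ≠ [] → Alternating (forget D) →
        ∃ dF dP σ : ℤ, IsLeast (fExponents K D) dF ∧ IsLeast (lExponents (P D)) dP ∧
          IsSignature D σ ∧ dF ≤ dP ∧ dP ≤ σ :=
  PG.final2

end Pool.Agent.Results.MP_3a4f2f_gt.AlternatingLinks
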